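import Pool.Agent.PLG.Stmts

/-!
Squad PLG (MP_1fc801_co), row CST (helper19): the constants of the thick case.
-/

set_option autoImplicit false

namespace Pool.Agent.PLG.H19

/-- bounded by a power of `L`, uniformly for `e ≤ d` -/
def P (d : ℕ) (x : ℝ → ℕ → ℝ) : Prop :=
  ∃ k : ℕ, ∀ (L : ℝ) (e : ℕ), 2 ≤ L → e ≤ d → 0 ≤ x L e ∧ x L e ≤ L ^ k

variable {d : ℕ} {x y : ℝ → ℕ → ℝ}

lemma P.const {c : ℝ} (hc : 0 ≤ c) : P d (fun _ _ => c) := by
  obtain ⟨k, hk⟩ := pow_unbounded_of_one_lt c (by norm_num : (1 : ℝ) < 2)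
  exact ⟨k, fun L e hL _ => ⟨hc, hk.le.trans (pow_le_pow_left₀ (by norm_num) hL k)⟩⟩

lemma P.base : P d (fun L _ => L) := ⟨1, fun L e hL _ => ⟨by linarith, by rw [pow_one]⟩⟩

lemma P.var : P d (fun _ e => (e : ℝ)) := by
  obtain ⟨k, hk⟩ := P.const (d := d) (c := (d : ℝ)) (Nat.cast_nonneg d)
  refine ⟨k, fun L e hL he => ⟨Nat.cast_nonneg e, le_trans ?_ (hk L e hL he).2⟩⟩
  show (e : ℝ) ≤ (d : ℝ)
  exact_mod_cast he

lemma pow_mono {L : ℝ} (hL : 2 ≤ L) {k l : ℕ} (h : k ≤ l) : L ^ k ≤ L ^ l :=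
  pow_le_pow_right₀ (by linarith) h

lemma P.add (hx : P d x) (hy : P d y) : P d (fun L e => x L e + y L e) := by
  obtain ⟨k, hk⟩ := hx
  obtain ⟨l, hl⟩ := hy
  refine ⟨max k l + 1, fun L e hL he => ?_⟩
  obtain ⟨a1, a2⟩ := hk L e hL he
  obtain ⟨b1, b2⟩ := hl L e hL he
  refine ⟨add_nonneg a1 b1, ?_⟩
  have h1 := a2.trans (pow_mono hL (le_max_left k l))
  have h2 := b2.trans (pow_mono hL (le_max_right k l))
  have h3 : 0 ≤ L ^ max k l := by positivity
  rw [pow_succ]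
  nlinarith

lemma P.mul (hx : P d x) (hy : P d y) : P d (fun L e => x L e * y L e) := by
  obtain ⟨k, hk⟩ := hx
  obtain ⟨l, hl⟩ := hy
  refine ⟨k + l, fun L e hL he => ?_⟩
  obtain ⟨a1, a2⟩ := hk L e hL he
  obtain ⟨b1, b2⟩ := hl L e hL he
  refine ⟨mul_nonneg a1 b1, ?_⟩
  rw [pow_add]
  exact mul_le_mul a2 b2 b1 (by positivity)

lemma P.pow (hx : P d x) (g : ℕ → ℕ) (hg : Monotone g) : P d (fun L e => x L e ^ g e) := by
  obtain ⟨k, hk⟩ := hx
  refine ⟨k * g d, fun L e hL he => ?_⟩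
  obtain ⟨a1, a2⟩ := hk L e hL he
  refine ⟨pow_nonneg a1 _, (pow_le_pow_left₀ a1 a2 _).trans ?_⟩
  rw [← pow_mul]
  exact pow_mono hL (Nat.mul_le_mul_left k (hg he))

lemma P.ceil (hx : P d x) : P d (fun L e => ((⌈x L e⌉₊ : ℕ) : ℝ)) := by
  obtain ⟨k, hk⟩ := hx.add (P.const zero_le_one)
  obtain ⟨l, hl⟩ := hx
  refine ⟨k, fun L e hL he => ⟨Nat.cast_nonneg _, ?_⟩⟩
  exact (Nat.ceil_lt_add_one (hl L e hL he).1).le.trans (hk L e hL he).2

/-- the quantities -/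
noncomputable def Bf (d : ℕ) (L : ℝ) : ℝ := 12 * 13 ^ d * L

noncomputable def sf (d : ℕ) (L : ℝ) : ℕ := ⌈5184 * Bf d L⌉₊ + 5

noncomputable def Kf (d : ℕ) (L : ℝ) : ℝ := 256 * (9 * Bf d L * (sf d L : ℕ)) ^ 4

noncomputable def Af (d : ℕ) (L : ℝ) (e : ℕ) : ℕ :=
  ⌈(3 * ((e : ℝ) + 1) * Kf d L ^ (e * e)) ^ e * Kf d L ^ (e * e)⌉₊

noncomputable def Tf (d : ℕ) (L : ℝ) (e : ℕ) : ℝ :=
  ((Kf d L ^ e + 1) * (e * (2 * (Af d L e : ℝ) + 1) ^ (e + 1))) ^ e

lemma m1 : Monotone fun e : ℕ => e := fun _ _ h => h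
lemma m2 : Monotone fun e : ℕ => e * e := fun _ _ h => Nat.mul_le_mul h h
lemma m3 : Monotone fun e : ℕ => e + 1 := fun _ _ h => Nat.add_le_add_right h 1
lemma m4 : Monotone fun e : ℕ => 2 * e := fun _ _ h => Nat.mul_le_mul_left 2 h
lemma m5 : Monotone fun e : ℕ => e * e + 1 := fun _ _ h => Nat.add_le_add_right (Nat.mul_le_mul h h) 1

lemma pB : P d (fun L _ => Bf d L) := (P.const (by positivity)).mul P.base

lemma ps : P d (fun L _ => ((sf d L : ℕ) : ℝ)) := by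
  have h := (((P.const (by norm_num : (0 : ℝ) ≤ 5184)).mul (pB (d := d))).ceil).add
    (P.const (by norm_num : (0 : ℝ) ≤ 5))
  obtain ⟨k, hk⟩ := h
  refine ⟨k, fun L e hL he => ?_⟩
  have := hk L e hL he
  unfold sf
  push_cast
  exact this

lemma pK : P d (fun L _ => Kf d L) :=
  (P.const (by norm_num)).mul (((((P.const (by norm_num)).mul pB).mul ps)).pow (fun _ => 4)
    (fun _ _ _ => le_rfl))

lemma pA : P d (fun L e => ((Af d L e : ℕ) : ℝ)) :=
  (((((P.const (by norm_num)).mul (P.var.add (P.const zero_le_one))).mul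
    (pK.pow _ m2)).pow _ m1).mul (pK.pow _ m2)).ceil

lemma pT : P d (fun L e => Tf d L e) :=
  (((pK.pow _ m1).add (P.const zero_le_one)).mul (P.var.mul
    ((((P.const (by norm_num)).mul pA).add (P.const zero_le_one)).pow _ m3))).pow _ m1

theorem cst : CstStmt := by
  intro d κ hκ
  have hκ0 : 0 ≤ κ := by linarith
  obtain ⟨c1, hc1⟩ := ((P.const (d := d) (c := 8 * ((d : ℝ) + 1)) (by positivity)).mul
    ((P.const hκ0).mul P.base))
  obtain ⟨c2, hc2⟩ := (pK (d := d)).pow _ m5 |>.mul ((P.const hκ0).mul P.base)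
  obtain ⟨k1, hk1⟩ := (P.const (d := d) (c := 9 * 9 ^ d) (by positivity)).mul
    ((P.base (d := d)).pow (fun _ => max c1 c2 * d) (fun _ _ _ => le_rfl))
  obtain ⟨k2, hk2⟩ := (P.base (d := d)).mul (((P.const (d := d) (c := 12) (by norm_num)).mul ps).mul
    (pT.mul ((P.const (d := d) (c := 2) (by norm_num)).pow _ m4)))
  obtain ⟨k3, hk3⟩ := (P.base (d := d)).mul (((P.const (d := d) (c := 3) (by norm_num)).mul ps).add
    (P.const (c := 12) (by norm_num)))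
  obtain ⟨k4, hk4⟩ := (P.base (d := d)).mul (((P.const (d := d) (c := 12) (by norm_num)).mul ps).mul
    (pT.mul ((((P.const (d := d) (c := 12) (by norm_num)).mul P.var).mul
      (pK.pow _ m1)).pow _ m4)))
  refine ⟨max c1 c2, 2 + k1 + k2 + k3 + k4, ?_⟩
  intro L B K T e s A hL he hB hs hK hA hT
  have hL0 : 0 < L := by linarith
  have eB : B = Bf d L := hB
  subst eB
  have es : s = sf d L := hs
  subst es
  have eK : K = Kf d L := hK
  subst eK
  have eA : A = Af d L e := hA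
  subst eA
  have eT : T = Tf d L e := hT
  subst eT
  refine ⟨?_, ?_, ?_, ?_, ?_, ?_⟩
  · have h1 := (hc1 L e hL he).2.trans (pow_mono hL (le_max_left c1 c2))
    have h2 : 8 * ((d : ℝ) + 1) * (κ * L * (1 / L ^ max c1 c2)) =
        8 * ((d : ℝ) + 1) * (κ * L) / L ^ max c1 c2 := by ring
    rw [h2, div_le_one (by positivity)]
    exact h1
  · have h1 := (hc2 L e hL he).2.trans (pow_mono hL (le_max_right c1 c2))
    have h2 : Kf d L ^ (e * e + 1) * (κ * L * (1 / L ^ max c1 c2)) =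
        Kf d L ^ (e * e + 1) * (κ * L) / L ^ max c1 c2 := by ring
    rw [h2, div_le_one (by positivity)]
    exact h1
  · intro j hj
    have h1 : (2 : ℝ) ^ 2 ≤ j := by
      refine le_trans (pow_le_pow_left₀ (by norm_num) hL 2) (le_trans (pow_mono hL ?_) hj)
      omega
    have hj3 : 3 ≤ j := by linarith
    refine ⟨hj3, ?_⟩
    have h2 := (hk1 L e hL he).2.trans (pow_mono hL (show k1 ≤ 2 + k1 + k2 + k3 + k4 by omega))
    have h3 : 9 * 9 ^ d * L ^ (max c1 c2 * d) ≤ j ^ 2 := by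
      refine h2.trans (hj.trans ?_)
      nlinarith
    rw [one_div, inv_pow, ← pow_mul, ← div_eq_mul_inv, le_div_iff₀ (by positivity)]
    exact h3
  · exact (hk2 L e hL he).2.trans (pow_mono hL (by omega))
  · exact (hk3 L e hL he).2.trans (pow_mono hL (by omega))
  · exact (hk4 L e hL he).2.trans (pow_mono hL (by omega))

end Pool.Agent.PLG.H19
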